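import Mathlib
import Pool.Agent.Helper10.Sub.Defs

/-!
# Subspace theorem project: Davenport's lemma
-/

set_option autoImplicit false

namespace Pool.Agent.Helper49.Sub

open Pool.Agent.Helper10.Sub

lemma dav_step {κ : Type*} [Fintype κ] [DecidableEq κ] {E : Type*} [AddCommGroup E] [Module ℚ E]
    (m : ℕ) (hm : Fintype.card κ = m + 1) (x : Fin m → E) (M : κ → E →ₗ[ℚ] ℝ) :
    ∃ i0 : κ, ∀ y ∈ Submodule.span ℚ (Set.range x), ∀ B : ℝ,
      (∀ i, i ≠ i0 → |M i y| ≤ B) → |M i0 y| ≤ m * B := by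
  classical
  have : Nonempty κ := Fintype.card_pos_iff.mp (by omega)
  -- a nontrivial real relation
  let Φ : (κ → ℝ) →ₗ[ℝ] (Fin m → ℝ) :=
    { toFun := fun α k => ∑ i, α i * M i (x k)
      map_add' := by
        intro α β
        funext k
        simp [add_mul, Finset.sum_add_distrib]
      map_smul' := by
        intro c α
        funext k
        simp [Finset.mul_sum, mul_assoc] }
  have hker : LinearMap.ker Φ ≠ ⊥ := by
    apply LinearMap.ker_ne_bot_of_finrank_lt
    rw [Module.finrank_fintype_fun_eq_card, Module.finrank_fintype_fun_eq_card, hm,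
      Fintype.card_fin]
    exact Nat.lt_succ_self m
  obtain ⟨α, hα, hα0⟩ := (Submodule.ne_bot_iff _).mp hker
  rw [LinearMap.mem_ker] at hα
  obtain ⟨i0, hi0⟩ := Finite.exists_max (fun i => |α i|)
  have hpos : 0 < |α i0| := by
    obtain ⟨i, hi⟩ := Function.ne_iff.mp hα0
    exact lt_of_lt_of_le (abs_pos.mpr hi) (hi0 i)
  refine ⟨i0, fun y hy B hB => ?_⟩
  have hrel : ∑ i, α i * M i y = 0 := by
    clear hB
    induction hy using Submodule.span_induction with
    | mem z hz =>
      obtain ⟨k, rfl⟩ := hz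
      exact congrFun hα k
    | zero => simp
    | add u v _ _ hu hv => simp [mul_add, Finset.sum_add_distrib, hu, hv]
    | smul c u _ hu =>
      have : ∑ i, α i * M i (c • u) = (c : ℝ) * ∑ i, α i * M i u := by
        rw [Finset.mul_sum]
        refine Finset.sum_congr rfl fun i _ => ?_
        rw [map_smul, Rat.smul_def]
        ring
      rw [this, hu, mul_zero]
  have h1 : α i0 * M i0 y = - ∑ i ∈ Finset.univ.erase i0, α i * M i y := by
    rw [← Finset.add_sum_erase _ _ (Finset.mem_univ i0)] at hrel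
    linarith
  have h2 : |α i0| * |M i0 y| ≤ |α i0| * (m * B) := by
    rw [← abs_mul, h1, abs_neg]
    calc |∑ i ∈ Finset.univ.erase i0, α i * M i y|
        ≤ ∑ i ∈ Finset.univ.erase i0, |α i * M i y| := Finset.abs_sum_le_sum_abs _ _
      _ ≤ ∑ _i ∈ Finset.univ.erase i0, |α i0| * B := by
          refine Finset.sum_le_sum fun i hi => ?_
          rw [abs_mul]
          exact mul_le_mul (hi0 i) (hB i (Finset.ne_of_mem_erase hi)) (abs_nonneg _)
            (abs_nonneg _)
      _ = |α i0| * (m * B) := by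
          rw [Finset.sum_const, Finset.card_erase_of_mem (Finset.mem_univ _), Finset.card_univ,
            hm, Nat.add_sub_cancel, nsmul_eq_mul]
          ring
  exact le_of_mul_le_mul_left h2 hpos

lemma dav_chain {E : Type*} [AddCommGroup E] [Module ℚ E] (m : ℕ) :
    ∀ {κ : Type} [Fintype κ] [DecidableEq κ] (_ : Fintype.card κ = m)
      (x : Fin m → E) (M : κ → E →ₗ[ℚ] ℝ),
    ∃ π : κ ≃ Fin m, ∀ l : Fin m, ∀ y ∈ Submodule.span ℚ (x '' {i | i ≤ l}), ∀ B : ℝ, 0 ≤ B →
      (∀ i, π i ≤ l → |M i y| ≤ B) → ∀ i, |M i y| ≤ (m : ℝ) ^ m * B := by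
  classical
  induction m with
  | zero =>
    intro κ _ _ hm x M
    exact ⟨Fintype.equivFinOfCardEq hm, fun l => l.elim0⟩
  | succ m ih =>
    intro κ _ _ hm x M
    obtain ⟨i0, hi0⟩ := dav_step m hm (fun k => x k.castSucc) M
    have hcard : Fintype.card {i // i ≠ i0} = m := by
      rw [Fintype.card_subtype_compl, Fintype.card_subtype_eq, hm, Nat.add_sub_cancel]
    obtain ⟨π', hπ'⟩ := ih hcard (fun k => x k.castSucc) (fun i => M i.1)
    let π : κ ≃ Fin (m + 1) :=
      (Equiv.optionSubtypeNe i0).symm.trans ((Equiv.optionCongr π').trans finSuccEquivLast.symm)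
    have hπ0 : π i0 = Fin.last m := by
      simp [π]
    have hπ1 : ∀ i (hi : i ≠ i0), π i = (π' ⟨i, hi⟩).castSucc := by
      intro i hi
      simp [π, Equiv.optionSubtypeNe_symm_of_ne hi]
    have hpow : (1 : ℝ) ≤ ((m + 1 : ℕ) : ℝ) ^ (m + 1) := by
      apply one_le_pow₀
      push_cast
      linarith [Nat.cast_nonneg (α := ℝ) m]
    refine ⟨π, fun l y hy B hB hle => ?_⟩
    rcases Fin.eq_castSucc_or_eq_last l with ⟨l', rfl⟩ | rfl
    · have hy' : y ∈ Submodule.span ℚ ((fun k : Fin m => x k.castSucc) '' {i | i ≤ l'}) := by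
        refine Submodule.span_mono ?_ hy
        rintro _ ⟨i, hi, rfl⟩
        rw [Set.mem_ofPred_eq] at hi
        have hi' : i.val ≤ l'.val := by
          have := hi
          rw [Fin.le_def] at this
          simpa using this
        refine ⟨⟨i.val, lt_of_le_of_lt hi' l'.isLt⟩, ?_, ?_⟩
        · rw [Set.mem_ofPred_eq, Fin.le_def]
          exact hi'
        · rfl
      have h1 : ∀ i (hi : i ≠ i0), |M i y| ≤ (m : ℝ) ^ m * B := by
        intro i hi
        refine hπ' l' y hy' B hB (fun i' hi' => ?_) ⟨i, hi⟩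
        refine hle i'.1 ?_
        rw [hπ1 i'.1 i'.2]
        exact Fin.castSucc_le_castSucc_iff.mpr hi'
      have h2 : |M i0 y| ≤ m * ((m : ℝ) ^ m * B) := by
        refine hi0 y ?_ _ h1
        refine Submodule.span_mono ?_ hy'
        exact Set.image_subset_range _ _
      have hm0 : (0 : ℝ) ≤ m := Nat.cast_nonneg m
      intro i
      by_cases hi : i = i0
      · subst hi
        refine h2.trans ?_
        rw [← mul_assoc, ← pow_succ']
        refine mul_le_mul_of_nonneg_right ?_ hB
        push_cast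
        exact pow_le_pow_left₀ hm0 (by linarith) _
      · refine (h1 i hi).trans (mul_le_mul_of_nonneg_right ?_ hB)
        push_cast
        calc (m : ℝ) ^ m ≤ ((m : ℝ) + 1) ^ m := pow_le_pow_left₀ hm0 (by linarith) _
          _ ≤ ((m : ℝ) + 1) ^ (m + 1) := pow_le_pow_right₀ (by linarith) (Nat.le_succ m)
    · intro i
      calc |M i y| ≤ B := hle i (Fin.le_last _)
        _ = 1 * B := (one_mul B).symm
        _ ≤ _ := mul_le_mul_of_nonneg_right hpow hB

variable {ι : Type} [Fintype ι] [DecidableEq ι] {T : Type} [Fintype T] {p : T → ℕ}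
  [∀ t, Fact (p t).Prime]

/-- The real forms as `ℚ`-linear maps. -/
noncomputable def Llin (S : Sys ι T p) (a : ι → ℝ) (i : ι) : (ι → ℚ) →ₗ[ℚ] ℝ where
  toFun := fun y => S.L y i / a i
  map_add' := by
    intro y z
    simp only [Sys.L, Pi.add_apply, Rat.cast_add, mul_add, Finset.sum_add_distrib, add_div]
  map_smul' := by
    intro c y
    simp only [Sys.L, Pi.smul_apply, smul_eq_mul, Rat.cast_mul, RingHom.id_apply, Rat.smul_def]
    rw [← mul_div_assoc, Finset.mul_sum]
    congr 1
    refine Finset.sum_congr rfl fun j _ => ?_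
    ring

omit [Fintype T] in
lemma Np_nonneg (S : Sys ι T p) (t : T) (a' : ι → ℝ) (x : ι → ℚ) : 0 ≤ S.Np t a' x :=
  norm_nonneg _

lemma N_nonneg (S : Sys ι T p) (a : ι → ℝ) (a' : T → ι → ℝ) (x : ι → ℚ) : 0 ≤ S.N a a' x :=
  mul_nonneg (norm_nonneg _) (Finset.prod_nonneg fun t _ => Np_nonneg S t _ x)

/-- DAV -/
theorem dav (S : Sys ι T p) (K : ℝ) (hK : 0 < K) : ∃ C : ℝ, 0 < C ∧
    ∀ (a : ι → ℝ) (a' : T → ι → ℝ), (∀ i, 0 < a i) → (∀ t i, 0 < a' t i) →
    ∀ x : Fin (Fintype.card ι) → ι → ℚ, LinearIndependent ℚ x →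
      (∀ j y, PVec (pprod p) y → y ∉ Submodule.span ℚ (x '' {i | i < j}) →
        S.N a a' (x j) ≤ K * S.N a a' y) →
    ∀ ρ : Fin (Fintype.card ι) → ℝ, (∀ j, 0 < ρ j) → Antitone ρ →
      (∀ i j, i ≤ j → ρ i * S.N a a' (x i) ≤ K * (ρ j * S.N a a' (x j))) →
    ∃ π : ι ≃ Fin (Fintype.card ι), ∀ j y, PVec (pprod p) y →
      y ∉ Submodule.span ℚ (x '' {i | i < j}) →
      ρ j * S.N a a' (x j) ≤ C * S.N (fun i => a i / ρ (π i)) a' y := by
  classical
  set n := Fintype.card ι with hn
  have hCpos : (0 : ℝ) < (n : ℝ) ^ n := by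
    rcases Nat.eq_zero_or_pos n with h | h
    · rw [h]; norm_num
    · exact pow_pos (Nat.cast_pos.mpr h) _
  refine ⟨K * (K * (n : ℝ) ^ n), by positivity, ?_⟩
  intro a a' ha ha' x hx hmin ρ hρ hanti hmono
  obtain ⟨π, hπ⟩ := dav_chain n hn.symm x (Llin S a)
  refine ⟨π, fun j y hy hyj => ?_⟩
  -- the smallest `l` with `y ∈ V_l`
  have htop : ⊤ ≤ Submodule.span ℚ (Set.range x) := by
    have := hx.span_eq_top_of_card_eq_finrank' (by simp [hn])
    exact this.ge
  have hex : ∃ l : ℕ, l < n ∧ ∀ hl : l < n,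
      y ∈ Submodule.span ℚ (x '' {i | i ≤ (⟨l, hl⟩ : Fin n)}) := by
    have hnpos : 0 < n := lt_of_le_of_lt (Nat.zero_le _) j.isLt
    refine ⟨n - 1, by omega, fun hl => ?_⟩
    have : x '' {i | i ≤ (⟨n - 1, hl⟩ : Fin n)} = Set.range x := by
      ext z
      constructor
      · rintro ⟨i, _, rfl⟩
        exact ⟨i, rfl⟩
      · rintro ⟨i, rfl⟩
        refine ⟨i, ?_, rfl⟩
        rw [Set.mem_ofPred_eq, Fin.le_def]
        have := i.isLt
        show i.val ≤ n - 1
        omega
    rw [this]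
    exact htop trivial
  have hl1 := (Nat.find_spec hex).1
  have hl2 := (Nat.find_spec hex).2 hl1
  set l : Fin n := ⟨Nat.find hex, hl1⟩ with hldef
  have hl3 : y ∉ Submodule.span ℚ (x '' {i | i < l}) := by
    intro hmem
    by_cases h0 : Nat.find hex = 0
    · -- then `y = 0`, contradiction
      have hemp : x '' {i | i < l} = ∅ := by
        rw [Set.image_eq_empty]
        ext i
        simp only [Set.mem_ofPred_eq, Set.mem_empty_iff_false, iff_false, not_lt]
        rw [Fin.le_def, hldef]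
        simp [h0]
      rw [hemp, Submodule.span_empty, Submodule.mem_bot] at hmem
      apply hyj
      rw [hmem]
      exact Submodule.zero_mem _
    · have hlt : Nat.find hex - 1 < Nat.find hex := by omega
      refine Nat.find_min hex hlt ⟨by omega, fun hl => ?_⟩
      refine Submodule.span_mono ?_ hmem
      refine Set.image_mono ?_
      intro i hi
      rw [Set.mem_ofPred_eq, Fin.lt_def] at hi
      rw [Set.mem_ofPred_eq, Fin.le_def]
      have hi' : i.val < Nat.find hex := hi
      show i.val ≤ Nat.find hex - 1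
      omega
  have hjl : j ≤ l := by
    by_contra hcon
    rw [not_le] at hcon
    apply hyj
    refine Submodule.span_mono ?_ hl2
    refine Set.image_mono ?_
    intro i hi
    exact lt_of_le_of_lt hi hcon
  have hNl : S.N a a' (x l) ≤ K * S.N a a' y := hmin l y hy hl3
  -- comparison of the real sizes
  have hinf : ρ l * S.Ninf a y ≤ (n : ℝ) ^ n * S.Ninf (fun i => a i / ρ (π i)) y := by
    set B := S.Ninf (fun i => a i / ρ (π i)) y with hB
    have hB0 : 0 ≤ B := norm_nonneg _
    have h1 : ∀ i, π i ≤ l → |Llin S a i y| ≤ B / ρ l := by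
      intro i hi
      rw [le_div_iff₀ (hρ l)]
      have h2 : |S.L y i / (a i / ρ (π i))| ≤ B := by
        have := norm_le_pi_norm (fun i => S.L y i / (a i / ρ (π i))) i
        rw [Real.norm_eq_abs] at this
        exact this
      have h3 : |S.L y i / (a i / ρ (π i))| = |Llin S a i y| * ρ (π i) := by
        have hne := (ha i).ne'
        have hne' := (hρ (π i)).ne'
        rw [← abs_of_pos (hρ (π i)), ← abs_mul, abs_of_pos (hρ (π i))]
        congr 1
        show S.L y i / (a i / ρ (π i)) = S.L y i / a i * ρ (π i)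
        field_simp
      calc |Llin S a i y| * ρ l ≤ |Llin S a i y| * ρ (π i) :=
            mul_le_mul_of_nonneg_left (hanti hi) (abs_nonneg _)
        _ = _ := h3.symm
        _ ≤ B := h2
    have h4 := hπ l y hl2 (B / ρ l) (div_nonneg hB0 (hρ l).le) h1
    have h5 : S.Ninf a y ≤ (n : ℝ) ^ n * (B / ρ l) := by
      refine (pi_norm_le_iff_of_nonneg ?_).mpr fun i => ?_
      · exact mul_nonneg hCpos.le (div_nonneg hB0 (hρ l).le)
      · rw [Real.norm_eq_abs]
        exact h4 i
    calc ρ l * S.Ninf a y ≤ ρ l * ((n : ℝ) ^ n * (B / ρ l)) :=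
          mul_le_mul_of_nonneg_left h5 (hρ l).le
      _ = (n : ℝ) ^ n * B := by
          have := (hρ l).ne'
          field_simp
  have hN : ρ l * S.N a a' y ≤ (n : ℝ) ^ n * S.N (fun i => a i / ρ (π i)) a' y := by
    unfold Sys.N
    have hprod : 0 ≤ ∏ t, S.Np t (a' t) y := Finset.prod_nonneg fun t _ => Np_nonneg S t _ y
    have := mul_le_mul_of_nonneg_right hinf hprod
    calc _ = ρ l * S.Ninf a y * ∏ t, S.Np t (a' t) y := by ring
      _ ≤ _ := this
      _ = _ := by ring
  calc ρ j * S.N a a' (x j) ≤ K * (ρ l * S.N a a' (x l)) := hmono j l hjl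
    _ ≤ K * (ρ l * (K * S.N a a' y)) := by
        refine mul_le_mul_of_nonneg_left ?_ hK.le
        exact mul_le_mul_of_nonneg_left hNl (hρ l).le
    _ = K * (K * (ρ l * S.N a a' y)) := by ring
    _ ≤ K * (K * ((n : ℝ) ^ n * S.N (fun i => a i / ρ (π i)) a' y)) := by
        refine mul_le_mul_of_nonneg_left ?_ hK.le
        exact mul_le_mul_of_nonneg_left hN hK.le
    _ = _ := by ring

end Pool.Agent.Helper49.Sub
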