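import Pool.Agent.Helper16.Place

set_option autoImplicit false
set_option linter.style.haveILetI false

namespace Pool.Agent.Helper49.BBSigma

open Pool.Agent.Helper16 Polynomial IntermediateField IsDedekindDomain

-- Module SIGMA-INV for MP_0b9e0b_ag: functions whose divisor is vertical are invariant under `y ↦ -y`.

section place

variable {L M : Type} [Field L] [Field M] [Algebra L M]

/-- The place of `L(y)` attached to an irreducible polynomial. -/
theorem exists_place_irr (y : M) (hy : Transcendental L y) (hM : L⟮y⟯ = ⊤) (p : L[X])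
    (hp : Irreducible p) : ∃ w : Place L M, ∀ q : L[X], w.val (aeval y q) ≤ 1 ∧
      (w.val (aeval y q) < 1 ↔ p ∣ q) := by
  letI : Algebra L[X] M := (aeval y : L[X] →ₐ[L] M).toRingHom.toAlgebra
  have hmap : ∀ q : L[X], algebraMap L[X] M q = aeval y q := fun _ => rfl
  haveI : FaithfulSMul L[X] M := by
    rw [faithfulSMul_iff_algebraMap_injective]
    exact transcendental_iff_injective.1 hy
  haveI : IsFractionRing L[X] M := by
    refine IsFractionRing.of_field L[X] M fun z => ?_
    have hz : z ∈ L⟮y⟯ := by rw [hM]; trivial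
    obtain ⟨p, q, h⟩ := (mem_adjoin_simple_iff L z).1 hz
    exact ⟨p, q, h⟩
  have hp0 : (Ideal.span {p} : Ideal L[X]) ≠ ⊥ := by
    rw [Ne, Ideal.span_singleton_eq_bot]
    exact hp.ne_zero
  have hpr : (Ideal.span {p} : Ideal L[X]).IsPrime :=
    (Ideal.span_singleton_prime hp.ne_zero).2 hp.prime
  let P : HeightOneSpectrum L[X] := ⟨Ideal.span {p}, hpr, hp0⟩
  refine ⟨⟨P.valuation M, P.valuation_surjective M, ?_⟩, ?_⟩
  · intro a ha
    have h1 : algebraMap L M a = algebraMap L[X] M (C a) := by
      rw [hmap, aeval_C]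
    rw [h1, P.valuation_of_algebraMap, HeightOneSpectrum.intValuation_eq_one_iff]
    intro hmem
    refine P.isPrime.ne_top (Ideal.eq_top_of_isUnit_mem _ hmem ?_)
    rw [isUnit_C]
    exact isUnit_iff_ne_zero.2 ha
  · intro q
    refine ⟨P.valuation_le_one (K := M) q, ?_⟩
    change P.valuation M (algebraMap L[X] M q) < 1 ↔ _
    rw [P.valuation_lt_one_iff_mem]
    exact Ideal.mem_span_singleton

end place

section core

/-- `F + α G` is not a square in `k(α)(x)`. -/
theorem not_mem_aux {k κ Ω : Type} [Field k] [Field κ] [Field Ω] [Algebra k κ] [Algebra κ Ω]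
    [Algebra.IsAlgebraic k κ] (X : Ω) (hX : Transcendental κ X) (F G : k[X])
    (hNS : ∀ α : AlgebraicClosure k,
      ¬ IsSquare (F.map (algebraMap k (AlgebraicClosure k)) +
        Polynomial.C α * G.map (algebraMap k (AlgebraicClosure k))))
    (α : κ) (θ : Ω) (hθ : θ ^ 2 = aeval X (F.map (algebraMap k κ) + C α * G.map (algebraMap k κ))) :
    θ ∉ κ⟮X⟯ := by
  intro hmem
  obtain ⟨a, b, h⟩ := (mem_adjoin_simple_iff κ θ).1 hmem
  set H : κ[X] := F.map (algebraMap k κ) + C α * G.map (algebraMap k κ) with hH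
  let j : κ →ₐ[k] AlgebraicClosure k := IsAlgClosed.lift
  have hinj := transcendental_iff_injective.1 hX
  have hsq : ¬ IsSquare H := by
    rintro ⟨c, hc⟩
    refine hNS (j α) ⟨c.map (j : κ →+* AlgebraicClosure k), ?_⟩
    have h1 := congrArg (Polynomial.map (j : κ →+* AlgebraicClosure k)) hc
    rw [hH, Polynomial.map_mul, Polynomial.map_add, Polynomial.map_mul, Polynomial.map_map,
      Polynomial.map_map, Polynomial.map_C] at h1
    have h2 : (j : κ →+* AlgebraicClosure k).comp (algebraMap k κ) =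
        algebraMap k (AlgebraicClosure k) := j.comp_algebraMap
    rw [h2] at h1
    exact h1
  by_cases hb : aeval X b = 0
  · rw [hb, div_zero] at h
    rw [h] at hθ
    have h0 : aeval X H = aeval X (0 : κ[X]) := by
      rw [← hθ, map_zero]; ring
    exact hsq ⟨0, by rw [hinj h0]; ring⟩
  · have h1 : aeval X (a ^ 2) = aeval X (H * b ^ 2) := by
      rw [map_mul, map_pow, map_pow, ← hθ, h]
      field_simp
    have h2 : a ^ 2 = H * b ^ 2 := hinj h1
    have hb0 : b ≠ 0 := by
      rintro rfl
      exact hb (map_zero _)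
    have h3 : b ∣ a := by
      have h4 : b ^ 2 ∣ a ^ 2 := ⟨H, by rw [h2]; ring⟩
      exact (IsIntegrallyClosed.pow_dvd_pow_iff two_ne_zero).1 h4
    obtain ⟨c, rfl⟩ := h3
    refine hsq ⟨c, ?_⟩
    have h5 : b ^ 2 * (c * c) = b ^ 2 * H := by
      rw [mul_comm (b ^ 2) H, ← h2]; ring
    exact (mul_left_cancel₀ (pow_ne_zero 2 hb0) h5).symm

theorem core {k L Ω : Type} [Field k] [Field L] [Field Ω] [Algebra k L] [Algebra L Ω] [Algebra k Ω]
    [IsScalarTower k L Ω] (x : L) (hx : Transcendental k x) (hL : k⟮x⟯ = ⊤)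
    (F G : k[X])
    (hNS : ∀ α : AlgebraicClosure k,
      ¬ IsSquare (F.map (algebraMap k (AlgebraicClosure k)) +
        Polynomial.C α * G.map (algebraMap k (AlgebraicClosure k))))
    (α θ : Ω) (hα : IsAlgebraic k α) (hint : IsIntegral L θ)
    (hθ : θ ^ 2 = algebraMap L Ω (aeval x F) + α * algebraMap L Ω (aeval x G)) :
    (minpoly L θ).comp (-X) = minpoly L θ := by
  -- `θ ∉ L(α)`
  have hnot : θ ∉ L⟮α⟯ := by
    intro hmem
    haveI : Algebra.IsAlgebraic k k⟮α⟯ := isAlgebraic_adjoin_simple hα.isIntegral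
    have hX : Transcendental k⟮α⟯ (algebraMap L Ω x) := by
      intro h
      have h1 : IsAlgebraic k (algebraMap L Ω x) := h.restrictScalars k
      exact hx ((isAlgebraic_algebraMap_iff (algebraMap L Ω).injective).1 h1)
    refine not_mem_aux (κ := k⟮α⟯) (algebraMap L Ω x) hX F G hNS (AdjoinSimple.gen k α) θ ?_ ?_
    · rw [hθ, map_add, map_mul, aeval_C, aeval_map_algebraMap, aeval_map_algebraMap,
        aeval_algebraMap_apply, aeval_algebraMap_apply, AdjoinSimple.algebraMap_gen]
    · -- `L(α) ⊆ k(α)(x)`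
      set T : IntermediateField k⟮α⟯ Ω := k⟮α⟯⟮algebraMap L Ω x⟯ with hT
      have hk : ∀ c : k, algebraMap k Ω c ∈ T := fun c => by
        rw [IsScalarTower.algebraMap_apply k k⟮α⟯ Ω]
        exact T.algebraMap_mem _
      have hxT : algebraMap L Ω x ∈ T := mem_adjoin_simple_self _ _
      have hαT : α ∈ T := by
        have := T.algebraMap_mem (AdjoinSimple.gen k α)
        rwa [AdjoinSimple.algebraMap_gen] at this
      have hpol : ∀ q : k[X], algebraMap L Ω (aeval x q) ∈ T := by
        intro q
        rw [← aeval_algebraMap_apply]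
        induction q using Polynomial.induction_on' with
        | add p q hp hq => rw [map_add]; exact add_mem hp hq
        | monomial n a => rw [aeval_monomial]; exact mul_mem (hk a) (pow_mem hxT n)
      have hLT : ∀ l : L, algebraMap L Ω l ∈ T := by
        intro l
        have hl : l ∈ k⟮x⟯ := by rw [hL]; trivial
        obtain ⟨a, b, h⟩ := (mem_adjoin_simple_iff k l).1 hl
        rw [h, map_div₀]
        exact div_mem (hpol a) (hpol b)
      let T' : IntermediateField L Ω := T.toSubfield.toIntermediateField hLT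
      have h2 : L⟮α⟯ ≤ T' := by
        rw [adjoin_simple_le_iff]
        exact hαT
      exact h2 hmem
  set E : IntermediateField L Ω := L⟮α⟯ with hE
  -- `θ ^ 2 ∈ L(α)`
  have hβ : θ ^ 2 ∈ E := by
    rw [hθ]
    exact add_mem (E.algebraMap_mem _) (mul_mem (mem_adjoin_simple_self _ _) (E.algebraMap_mem _))
  have hmin : X ^ 2 - C (⟨θ ^ 2, hβ⟩ : E) = minpoly E θ := by
    refine minpoly.eq_of_irreducible_of_monic ?_ ?_ (monic_X_pow_sub_C _ two_ne_zero)
    · rw [X_pow_sub_C_irreducible_iff_of_prime Nat.prime_two]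
      intro b hb
      have h1 : (b : Ω) ^ 2 = θ ^ 2 := congrArg Subtype.val hb
      rcases sq_eq_sq_iff_eq_or_eq_neg.1 h1 with h | h
      · exact hnot (h ▸ b.2)
      · apply hnot
        have : θ = -(b : Ω) := by rw [h, neg_neg]
        rw [this]
        exact neg_mem b.2
    · rw [map_sub, map_pow, aeval_X, aeval_C]
      exact sub_self _
  have hneg : aeval (-θ) (minpoly L θ) = 0 := by
    obtain ⟨q, hq⟩ := minpoly.dvd_map_of_isScalarTower L E θ
    rw [← aeval_map_algebraMap E, hq, map_mul, ← hmin, map_sub, map_pow, aeval_X, aeval_C]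
    have : (-θ) ^ 2 - algebraMap E Ω ⟨θ ^ 2, hβ⟩ = 0 := by
      rw [neg_sq]
      exact sub_self _
    rw [this, zero_mul]
  have hθ0 : θ ≠ 0 := by
    rintro rfl
    exact hnot (zero_mem _)
  have hdvd : minpoly L θ ∣ (minpoly L θ).comp (-X) := by
    apply minpoly.dvd
    rw [aeval_comp, map_neg, aeval_X]
    exact hneg
  have hdeg : ((minpoly L θ).comp (-X)).natDegree = (minpoly L θ).natDegree := by
    rw [natDegree_comp, natDegree_neg, natDegree_X, mul_one]
  have h1 := eq_leadingCoeff_mul_of_monic_of_dvd_of_natDegree_le (minpoly.monic hint) hdvd hdeg.le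
  have h2 := congrArg (eval 0) h1
  rw [eval_comp, eval_neg, eval_X, neg_zero, eval_mul, eval_C] at h2
  have h3 : eval 0 (minpoly L θ) ≠ 0 := by
    rw [← coeff_zero_eq_eval_zero]
    exact minpoly.coeff_zero_ne_zero hint hθ0
  have h4 : ((minpoly L θ).comp (-X)).leadingCoeff = 1 :=
    mul_right_cancel₀ h3 (by rw [one_mul]; exact h2.symm)
  rw [h4, map_one, one_mul] at h1
  exact h1

end core

section even

variable {L M : Type} [Field L] [Field M] [Algebra L M]

/-- A polynomial all of whose monic irreducible factors are even is even. -/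
theorem even_of_factors (a : L[X])
    (h : ∀ p : L[X], p.Monic → Irreducible p → p ∣ a → p.comp (-X) = p) : a.comp (-X) = a := by
  classical
  have h1 := leadingCoeff_mul_prod_normalizedFactors a
  have h2 : ∀ s : Multiset L[X], (∀ p ∈ s, p.comp (-X) = p) → s.prod.comp (-X) = s.prod := by
    intro s
    induction s using Multiset.induction_on with
    | empty => intro _; simp
    | cons p s ih =>
      intro hs
      rw [Multiset.prod_cons, mul_comp, hs p (Multiset.mem_cons_self _ _),
        ih fun q hq => hs q (Multiset.mem_cons_of_mem hq)]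
  rw [← h1, mul_comp, C_comp, h2]
  intro p hp
  have hirr := UniqueFactorizationMonoid.irreducible_of_normalized_factor p hp
  refine h p ?_ hirr (UniqueFactorizationMonoid.dvd_of_mem_normalizedFactors hp)
  have h3 := UniqueFactorizationMonoid.normalize_normalized_factor p hp
  rw [← h3]
  exact monic_normalize hirr.ne_zero

theorem exists_coprime_repr (y : M) (hy : Transcendental L y) (hM : L⟮y⟯ = ⊤) (f : M) (hf : f ≠ 0) :
    ∃ a b : L[X], IsCoprime a b ∧ f = aeval y a / aeval y b ∧ b ≠ 0 ∧ a ≠ 0 := by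
  classical
  letI := EuclideanDomain.gcdMonoid L[X]
  have hinj := transcendental_iff_injective.1 hy
  have hfm : f ∈ L⟮y⟯ := by rw [hM]; trivial
  obtain ⟨r, s, hrs⟩ := (mem_adjoin_simple_iff L f).1 hfm
  have hs0 : s ≠ 0 := by
    rintro rfl
    rw [map_zero, div_zero] at hrs
    exact hf hrs
  have hr0 : r ≠ 0 := by
    rintro rfl
    rw [map_zero, zero_div] at hrs
    exact hf hrs
  have hg0 : GCDMonoid.gcd r s ≠ 0 := by
    rw [Ne, gcd_eq_zero_iff]
    exact fun h => hr0 h.1
  have hcop := isCoprime_div_gcd_div_gcd (p := r) hs0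
  have h1 : r = GCDMonoid.gcd r s * (r / GCDMonoid.gcd r s) :=
    (EuclideanDomain.mul_div_cancel' hg0 (GCDMonoid.gcd_dvd_left r s)).symm
  have h2 : s = GCDMonoid.gcd r s * (s / GCDMonoid.gcd r s) :=
    (EuclideanDomain.mul_div_cancel' hg0 (GCDMonoid.gcd_dvd_right r s)).symm
  refine ⟨r / GCDMonoid.gcd r s, s / GCDMonoid.gcd r s, hcop, ?_, ?_, ?_⟩
  · have h3 : aeval y (GCDMonoid.gcd r s) ≠ 0 := by
      intro h0
      exact hg0 (hinj (by rw [h0, map_zero]))
    rw [hrs]
    have h4 := congrArg (aeval y) h1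
    have h5 := congrArg (aeval y) h2
    rw [map_mul] at h4 h5
    rw [h4, h5, mul_div_mul_left _ _ h3]
  · intro h0
    rw [h0, mul_zero] at h2
    exact hs0 h2
  · intro h0
    rw [h0, mul_zero] at h1
    exact hr0 h1

end even

theorem sigma_inv {k L M : Type} [Field k] [Field L] [Field M] [Algebra k L] [Algebra L M]
    [Algebra k M] [IsScalarTower k L M] [Algebra (RatFunc k) M] [IsScalarTower k (RatFunc k) M]
    (x : L) (hx : Transcendental k x) (hL : IntermediateField.adjoin k {x} = ⊤) (y : M)
    (hy : Transcendental L y) (hM : IntermediateField.adjoin L {y} = ⊤)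
    (F G : Polynomial k) (hG : G ≠ 0)
    (hNS : ∀ α : AlgebraicClosure k,
      ¬ IsSquare (F.map (algebraMap k (AlgebraicClosure k)) +
        Polynomial.C α * G.map (algebraMap k (AlgebraicClosure k))))
    (ht : algebraMap (RatFunc k) M RatFunc.X * algebraMap L M (Polynomial.aeval x G) =
      y ^ 2 - algebraMap L M (Polynomial.aeval x F))
    (σ : M ≃ₐ[L] M) (hσ : σ y = -y) (f : M) (hf : f ≠ 0)
    (h : ∀ w : Place (RatFunc k) M, (∀ a : L, a ≠ 0 → w.val (algebraMap L M a) = 1) →
      w.ord f = 0) : σ f = f := by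
  have hinj := transcendental_iff_injective.1 hy
  obtain ⟨a, b, hab, hfab, hb0, ha0⟩ := exists_coprime_repr y hy hM f hf
  have key : ∀ p : L[X], p.Monic → Irreducible p → (p ∣ a ∨ p ∣ b) → p.comp (-X) = p := by
    intro p hpm hp hpab
    obtain ⟨w, hw⟩ := exists_place_irr y hy hM p hp
    have hval : ∀ q : L[X], ¬ p ∣ q → w.val (aeval y q) = 1 := fun q hq =>
      le_antisymm (hw q).1 (not_lt.1 fun hlt => hq ((hw q).2.1 hlt))
    -- the order of `f` at `w` is not zero
    have hwf : w.val f ≠ 1 := by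
      rw [hfab, map_div₀]
      rcases hpab with hpa | hpb
      · have hnb : ¬ p ∣ b := fun hpb => hp.not_isUnit (hab.isUnit_of_dvd' hpa hpb)
        rw [hval b hnb, div_one]
        exact ((hw a).2.2 hpa).ne
      · have hna : ¬ p ∣ a := fun hpa => hp.not_isUnit (hab.isUnit_of_dvd' hpa hpb)
        rw [hval a hna, one_div, ne_eq, inv_eq_one]
        exact ((hw b).2.2 hpb).ne
    -- so `w` is not trivial on `k(t)`
    obtain ⟨c, hc0, hc⟩ : ∃ c : RatFunc k, c ≠ 0 ∧ w.val (algebraMap (RatFunc k) M c) ≠ 1 := by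
      by_contra hcon
      push Not at hcon
      let w' : Place (RatFunc k) M := ⟨w.val, w.surj, hcon⟩
      have h1 := h w' w.triv
      exact hwf ((w'.ord_eq_zero_iff hf).1 h1)
    -- hence there is a polynomial `q` with `q(t)` vanishing at `w`
    have hGx : aeval x G ≠ 0 := by
      intro h0
      exact hG (transcendental_iff_injective.1 hx (by rw [h0, map_zero]))
    have hGM : algebraMap L M (aeval x G) ≠ 0 := by simpa using hGx
    set T : L[X] := C (aeval x G)⁻¹ * (X ^ 2 - C (aeval x F)) with hT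
    have hTy : algebraMap (RatFunc k) M RatFunc.X = aeval y T := by
      rw [hT, map_mul, aeval_C, map_sub, map_pow, aeval_X, aeval_C, ← ht, map_inv₀]
      field_simp
    have hpol : ∀ q : k[X], algebraMap (RatFunc k) M (algebraMap k[X] (RatFunc k) q) =
        aeval y ((q.map (algebraMap k L)).comp T) := by
      intro q
      rw [aeval_comp, ← hTy, aeval_map_algebraMap, aeval_algebraMap_apply]
      congr 1
      rw [← RatFunc.algebraMap_X, aeval_algebraMap_apply]
      simp
    obtain ⟨q, hq0, hq⟩ : ∃ q : k[X], q ≠ 0 ∧ p ∣ (q.map (algebraMap k L)).comp T := by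
      by_contra hcon
      push Not at hcon
      apply hc
      rw [← RatFunc.num_div_denom c, map_div₀, map_div₀, hpol, hpol, hval _ (hcon _ ?_),
        hval _ (hcon _ ?_), div_one]
      · exact RatFunc.denom_ne_zero c
      · simpa using hc0
    -- a root of `p`
    let Ω := AlgebraicClosure L
    obtain ⟨θ, hθ⟩ : ∃ θ : Ω, aeval θ p = 0 := by
      apply IsAlgClosed.exists_aeval_eq_zero
      exact (degree_pos_of_irreducible hp).ne'
    have hmin : minpoly L θ = p := (minpoly.eq_of_irreducible_of_monic hp hθ hpm).symm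
    have hint : IsIntegral L θ := ⟨p, hpm, hθ⟩
    have hα : IsAlgebraic k (aeval θ T) := by
      refine ⟨q, hq0, ?_⟩
      rw [← aeval_map_algebraMap L, ← aeval_comp]
      obtain ⟨r, hr⟩ := hq
      rw [hr, map_mul, hθ, zero_mul]
    have := core x hx hL F G hNS (aeval θ T) θ hα hint (by
      rw [hT, map_mul, aeval_C, map_sub, map_pow, aeval_X, aeval_C, map_inv₀]
      have hGΩ : algebraMap L Ω (aeval x G) ≠ 0 := by simpa using hGx
      rw [mul_right_comm, inv_mul_cancel₀ hGΩ, one_mul]
      ring)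
    rwa [hmin] at this
  have hev : ∀ q : L[X], q ≠ 0 → (∀ p : L[X], p.Monic → Irreducible p → p ∣ q → p.comp (-X) = p) →
      σ (aeval y q) = aeval y q := by
    intro q hq hq2
    have h1 : σ (aeval y q) = aeval (-y) q := by
      rw [← hσ]
      exact (aeval_algHom_apply (σ : M →ₐ[L] M) y q).symm
    rw [h1]
    conv_rhs => rw [← even_of_factors q hq2, aeval_comp]
    rw [map_neg, aeval_X]
  rw [hfab, map_div₀, hev a ha0 fun p h1 h2 h3 => key p h1 h2 (Or.inl h3),
    hev b hb0 fun p h1 h2 h3 => key p h1 h2 (Or.inr h3)]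

end Pool.Agent.Helper49.BBSigma
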