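import Pool.Agent.Helper29.QP.Defs

/-!
Module QP-B5: a word containing a generator exactly once is primitive.
-/



namespace Pool.Agent.Helper49.QPB5

open Pool.Agent.Helper29.QP

variable {X : Type}

/-- A hom fixing all generators but `x` fixes all words without `x`. -/
theorem lift_mk_of_notMem (f : X → FreeGroup X) (x : X) (hf : ∀ y, y ≠ x → f y = FreeGroup.of y)
    (L : List (X × Bool)) (hL : ∀ s ∈ L, s.1 ≠ x) :
    FreeGroup.lift f (FreeGroup.mk L) = FreeGroup.mk L := by
  have h1 : FreeGroup.lift FreeGroup.of (FreeGroup.mk L) = FreeGroup.mk L := by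
    rw [FreeGroup.lift_of_eq_id]; rfl
  conv_rhs => rw [← h1]
  rw [FreeGroup.lift_mk, FreeGroup.lift_mk]
  congr 1
  apply List.map_congr_left
  intro s hs
  rw [hf s.1 (hL s hs)]

theorem primitive_of_deg_one {n : ℕ} (cw : Fin (n + 1) → X × Bool) (x : X) (h : deg cw x = 1) :
    ∃ (ι : Type) (b : FreeGroupBasis ι (FreeGroup X)) (i : ι),
      b i = FreeGroup.mk (List.ofFn cw) := by
  classical
  obtain ⟨i, hi⟩ := Finset.card_eq_one.1 h
  have hix : (cw i).1 = x := by
    have : i ∈ Finset.univ.filter fun i => (cw i).1 = x := by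
      have h2 : i ∈ ({i} : Finset (Fin (n + 1))) := Finset.mem_singleton_self i
      rw [← hi] at h2
      simpa using h2
    simpa using this
  have huniq : ∀ j, (cw j).1 = x → j = i := by
    intro j hj
    have h2 : j ∈ ({i} : Finset (Fin (n + 1))) := by
      rw [← hi]
      simpa using hj
    simpa using h2
  set L := List.ofFn cw with hLdef
  have hlen : L.length = n + 1 := List.length_ofFn
  have hget : ∀ (k : ℕ) (hk : k < L.length), L[k] = cw ⟨k, hlen ▸ hk⟩ := by
    intro k hk
    exact List.getElem_ofFn hk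
  set L1 := L.take i with hL1
  set L2 := L.drop (i + 1) with hL2
  have hilt : (i : ℕ) < L.length := by rw [hlen]; exact i.2
  have hsplit : L = L1 ++ cw i :: L2 := by
    have h1 : L = L.take i ++ L.drop i := (List.take_append_drop i L).symm
    rw [List.drop_eq_getElem_cons hilt, hget i hilt] at h1
    exact h1
  have hno1 : ∀ s ∈ L1, s.1 ≠ x := by
    intro s hs hsx
    obtain ⟨k, hk, rfl⟩ := List.mem_iff_getElem.1 hs
    have hk' : k < (i : ℕ) := by
      have := hk
      rw [hL1, List.length_take] at this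
      omega
    have hkL : k < L.length := by omega
    have h1 : L1[k] = L[k] := List.getElem_take
    rw [h1, hget k hkL] at hsx
    have := huniq _ hsx
    have : k = (i : ℕ) := congrArg Fin.val this
    omega
  have hno2 : ∀ s ∈ L2, s.1 ≠ x := by
    intro s hs hsx
    obtain ⟨k, hk, rfl⟩ := List.mem_iff_getElem.1 hs
    have hk' : (i : ℕ) + 1 + k < L.length := by
      have := hk
      rw [hL2, List.length_drop] at this
      omega
    have h1 : L2[k] = L[(i : ℕ) + 1 + k] := List.getElem_drop
    rw [h1, hget _ hk'] at hsx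
    have := huniq _ hsx
    have : (i : ℕ) + 1 + k = (i : ℕ) := congrArg Fin.val this
    omega
  set u := FreeGroup.mk L1 with hu
  set v := FreeGroup.mk L2 with hv
  have hw : FreeGroup.mk L = u * FreeGroup.mk [cw i] * v := by
    rw [hsplit, hu, hv, FreeGroup.mul_mk, FreeGroup.mul_mk]
    simp
  obtain ⟨ε, hε⟩ : ∃ ε, cw i = (x, ε) := ⟨(cw i).2, by rw [← hix]⟩
  let f : X → FreeGroup X := fun y => if y = x then u * FreeGroup.mk [cw i] * v else FreeGroup.of y
  let c : FreeGroup X := cond ε (u⁻¹ * FreeGroup.of x * v⁻¹) (u⁻¹ * FreeGroup.of x * v⁻¹)⁻¹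
  let g : X → FreeGroup X := fun y => if y = x then c else FreeGroup.of y
  have hfx : f x = u * FreeGroup.mk [cw i] * v := if_pos rfl
  have hgx : g x = c := if_pos rfl
  have hfy : ∀ y, y ≠ x → f y = FreeGroup.of y := fun y hy => if_neg hy
  have hgy : ∀ y, y ≠ x → g y = FreeGroup.of y := fun y hy => if_neg hy
  have hfu : FreeGroup.lift f u = u := lift_mk_of_notMem f x hfy L1 hno1
  have hfv : FreeGroup.lift f v = v := lift_mk_of_notMem f x hfy L2 hno2
  have hgu : FreeGroup.lift g u = u := lift_mk_of_notMem g x hgy L1 hno1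
  have hgv : FreeGroup.lift g v = v := lift_mk_of_notMem g x hgy L2 hno2
  have hmk : FreeGroup.mk [cw i] = cond ε (FreeGroup.of x) (FreeGroup.of x)⁻¹ := by
    rw [hε]
    cases ε
    · rfl
    · rfl
  have h1 : (FreeGroup.lift g).comp (FreeGroup.lift f) = MonoidHom.id _ := by
    apply FreeGroup.ext_hom
    intro y
    rw [MonoidHom.comp_apply, FreeGroup.lift_apply_of, MonoidHom.id_apply]
    by_cases hy : y = x
    · subst hy
      rw [hfx, map_mul, map_mul, hgu, hgv, hmk]
      cases ε
      · simp only [cond_false, map_inv, FreeGroup.lift_apply_of, hgx, c]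
        group
      · simp only [cond_true, FreeGroup.lift_apply_of, hgx, c]
        group
    · rw [hfy y hy, FreeGroup.lift_apply_of, hgy y hy]
  have h2 : (FreeGroup.lift f).comp (FreeGroup.lift g) = MonoidHom.id _ := by
    apply FreeGroup.ext_hom
    intro y
    rw [MonoidHom.comp_apply, FreeGroup.lift_apply_of, MonoidHom.id_apply]
    by_cases hy : y = x
    · subst hy
      rw [hgx]
      cases ε
      · simp only [cond_false, map_inv, map_mul, FreeGroup.lift_apply_of, hfx, hfu, hfv, hmk, c]
        group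
      · simp only [cond_true, map_inv, map_mul, FreeGroup.lift_apply_of, hfx, hfu, hfv, hmk, c]
        group
    · rw [hgy y hy, FreeGroup.lift_apply_of, hfy y hy]
  let E : FreeGroup X ≃* FreeGroup X := MonoidHom.toMulEquiv _ _ h1 h2
  refine ⟨X, (FreeGroupBasis.ofFreeGroup X).map E, x, ?_⟩
  have hb : ((FreeGroupBasis.ofFreeGroup X).map E) x = E (FreeGroup.of x) := rfl
  rw [hb, hw, ← hfx]
  exact FreeGroup.lift_apply_of

end Pool.Agent.Helper49.QPB5
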