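import Pool.Agent.Helper29.QP.Defs

/-!
Module QP-B6: primitive elements stay primitive in a bigger free group.
-/

open MonoidAlgebra Module

namespace Pool.Agent.Helper49.QPB6

open Pool.Agent.Helper29.QP

variable {X : Type}

theorem primitive_map {Y : Type} (e : Y ↪ X) (w : FreeGroup Y)
    (h : ∃ (ι : Type) (b : FreeGroupBasis ι (FreeGroup Y)) (i : ι), b i = w) :
    ∃ (ι : Type) (b : FreeGroupBasis ι (FreeGroup X)) (i : ι), b i = FreeGroup.map e w := by
  classical
  obtain ⟨ι, b, i, rfl⟩ := h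
  let Z := {x : X // x ∉ Set.range e}
  let F : FreeGroup (ι ⊕ Z) →* FreeGroup X :=
    FreeGroup.lift (Sum.elim (fun i => FreeGroup.map e (b i)) fun z => FreeGroup.of z.1)
  let inl' : FreeGroup ι →* FreeGroup (ι ⊕ Z) := FreeGroup.map Sum.inl
  let G : FreeGroup X →* FreeGroup (ι ⊕ Z) := FreeGroup.lift fun x =>
    if hx : ∃ y, e y = x then inl' (b.repr (FreeGroup.of hx.choose))
    else FreeGroup.of (Sum.inr ⟨x, fun ⟨y, hy⟩ => hx ⟨y, hy⟩⟩)
  have hGe : ∀ y, G (FreeGroup.of (e y)) = inl' (b.repr (FreeGroup.of y)) := by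
    intro y
    have hx : ∃ y', e y' = e y := ⟨y, rfl⟩
    have hy : hx.choose = y := e.injective hx.choose_spec
    simp only [G, FreeGroup.lift_apply_of, dif_pos hx, hy]
  have hGmap : ∀ v : FreeGroup Y, G (FreeGroup.map e v) = inl' (b.repr v) := by
    intro v
    have : (G.comp (FreeGroup.map e)) = inl'.comp b.repr.toMonoidHom := by
      apply FreeGroup.ext_hom
      intro y
      simpa using hGe y
    exact DFunLike.congr_fun this v
  have hFinl : ∀ u : FreeGroup ι, F (inl' u) = FreeGroup.map e (b.repr.symm u) := by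
    intro u
    have : F.comp inl' = (FreeGroup.map e).comp b.repr.symm.toMonoidHom := by
      apply FreeGroup.ext_hom
      intro j
      simp only [MonoidHom.comp_apply, inl', FreeGroup.map.of, F, FreeGroup.lift_apply_of,
        Sum.elim_inl]
      rfl
    exact DFunLike.congr_fun this u
  have h1 : G.comp F = MonoidHom.id _ := by
    apply FreeGroup.ext_hom
    rintro (j | z)
    · have : F (FreeGroup.of (Sum.inl j)) = FreeGroup.map e (b j) := by simp [F]
      simp only [MonoidHom.comp_apply, MonoidHom.id_apply, this, hGmap]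
      simp [inl']
    · have hz : ¬ ∃ y, e y = z.1 := fun ⟨y, hy⟩ => z.2 ⟨y, hy⟩
      simp [F, G, dif_neg hz]
  have h2 : F.comp G = MonoidHom.id _ := by
    apply FreeGroup.ext_hom
    intro x
    by_cases hx : ∃ y, e y = x
    · obtain ⟨y, rfl⟩ := hx
      simp only [MonoidHom.comp_apply, MonoidHom.id_apply, hGe, hFinl]
      simp
    · simp only [MonoidHom.comp_apply, MonoidHom.id_apply, G, FreeGroup.lift_apply_of, dif_neg hx]
      simp [F]
  let E : FreeGroup (ι ⊕ Z) ≃* FreeGroup X := MonoidHom.toMulEquiv F G h1 h2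
  refine ⟨ι ⊕ Z, ⟨E.symm⟩, Sum.inl i, ?_⟩
  show E.symm.symm (FreeGroup.of (Sum.inl i)) = _
  simp [E, F]

end Pool.Agent.Helper49.QPB6
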