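import Pool.Agent.Helper29.QP.Defs

/-!
Module QP-T7: a subgroup of a free group generated by `k` elements has rank at most `k`.
-/

open MonoidAlgebra Module

namespace Pool.Agent.Helper49.QPT7

open Pool.Agent.Helper29.QP

variable {X : Type}

theorem closure_rank (S : Finset (FreeGroup X)) :
    ∃ k ≤ S.card, HasRank (Subgroup.closure (S : Set (FreeGroup X))) k := by
  classical
  let H := Subgroup.closure (S : Set (FreeGroup X))
  have : IsFreeGroup H := inferInstance
  let b : FreeGroupBasis (IsFreeGroup.Generators H) H := IsFreeGroup.basis H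
  let ι := IsFreeGroup.Generators H
  let A := Multiplicative (ZMod 2)
  -- homs are determined by their values on `S`
  let res : (ι → A) → (S → A) := fun f s => b.lift f ⟨s.1, Subgroup.subset_closure s.2⟩
  have hres : Function.Injective res := by
    intro f g hfg
    apply b.lift.injective
    refine MonoidHom.ext fun h => ?_
    obtain ⟨h, hh⟩ := h
    induction hh using Subgroup.closure_induction with
    | mem x hx => exact congrFun hfg ⟨x, hx⟩
    | one =>
      have h1 : (⟨1, one_mem _⟩ : H) = 1 := rfl
      rw [h1, map_one, map_one]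
    | mul x y hx hy h1 h2 =>
      have h3 : (⟨x * y, mul_mem hx hy⟩ : H) = ⟨x, hx⟩ * ⟨y, hy⟩ := rfl
      rw [h3, map_mul, map_mul, h1, h2]
    | inv x hx h1 =>
      have h3 : (⟨x⁻¹, inv_mem hx⟩ : H) = (⟨x, hx⟩)⁻¹ := rfl
      rw [h3, map_inv, map_inv, h1]
  have hfin : Finite (ι → A) := Finite.of_injective res hres
  have hι : Finite ι := by
    have hinj : Function.Injective (fun i : ι => (Pi.mulSingle i (Multiplicative.ofAdd 1) : ι → A)) := by
      intro i j hij
      by_contra hne
      have := congrFun hij i
      simp only [Pi.mulSingle_eq_same] at this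
      rw [Pi.mulSingle_eq_of_ne hne] at this
      exact absurd this (by decide)
    exact Finite.of_injective _ hinj
  have : Fintype ι := Fintype.ofFinite ι
  have hcard : 2 ^ Fintype.card ι ≤ 2 ^ S.card := by
    have h := Fintype.card_le_of_injective res hres
    rw [Fintype.card_fun, Fintype.card_fun, Fintype.card_coe] at h
    have h2 : Fintype.card A = 2 := rfl
    rwa [h2] at h
  refine ⟨Fintype.card ι, (Nat.pow_le_pow_iff_right (by norm_num)).1 hcard, ?_⟩
  exact ⟨b.reindex (Fintype.equivFin ι)⟩

end Pool.Agent.Helper49.QPT7
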